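import Mathlib
import Pool.Agent.H534.NW.Idx2

/-!
# Primes `p_i`, `i` in a class modulo `q`, with almost prime `p_i + 2, ..., p_(i+m) + 2`, at all the places of
# every narrow shape

Let `h_1, ..., h_s ≥ 1` be distinct and such that no prime divides all the products `n (n + h_1) ... (n + h_s)`,
for instance `s = 1` and `h_1 = 2`.  For all `q`, `m` and every residue class `e` modulo `q` we consider the
primes `p = p_i` with index `i ≡ e` modulo `q` such that the `m + 1` consecutive primes `p_i, ..., p_(i+m)` lie
in an interval of bounded length and all the numbers `p_(i+u) + h_j` have a bounded number of prime factors.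
Those in `(x / 2, 2 x]` contain constellations `n, n + D b_1, ..., n + D b_k` of EVERY shape
`b_1, ..., b_k`, with the right number (up to powers of `log x`) of them for a positive proportion of the
multiples `D = W d`, `d ≤ X`, for all `X` from a power of `log x` up to `(x / (W b_j)) ^ (1 / 3)`.
The modulus `W = WS σ b x` is small: it is the product of the primes `p ≤ (log x) ^ (1 - σ)` such that
`p ≤ log log x` or two of the numbers `0, b_1, ..., b_k` are congruent modulo `p`.

So for fixed (or bounded) `b` all `D` below a fixed power of `log x` can be had, and for all shapes with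
`b_j ≤ x ^ (1 - o(1))` differences `D = x ^ o(1)`.

Proof.  `Pool.Agent.H534.NW`: the relative multidimensional Szemerédi theorem for shapes of polynomial size,
by densification and the linear forms conditions for a majorant of Selberg type; since `W` is free of most
primes, the correlations are only controlled outside of few positions, by a large deviation inequality for the
primes dividing collisions.  It is applied to a dense subset of the strings of primes with almost prime
companions of the library (a Maynard-Tao theorem).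
-/

set_option autoImplicit false

open Finset Filter

namespace Pool.Agent.Results.MP_be93de_nt.IndicesAtEveryShape

open Pool.Agent.H534.NW (WS Shapes Run pr)

/-- `0, h_1, ..., h_s` is admissible: no prime divides `n (n + h_1) ... (n + h_s)` for all `n`. -/
def Admissible {s : ℕ} (h : Fin s → ℕ) : Prop := ∀ p : ℕ, p.Prime → ∃ n : ℕ, ¬ p ∣ n ∧ ∀ i, ¬ p ∣ n + h i

/-- all the numbers `p + h_i` have at most `r` prime factors, counted with multiplicity, all of them larger
than `y` -/
def AlmostPrimes {s : ℕ} (h : Fin s → ℕ) (r : ℕ) (y : ℝ) (p : ℕ) : Prop :=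
  ∀ i, (p + h i).primeFactorsList.length ≤ r ∧ ∀ u : ℕ, u.Prime → u ∣ p + h i → y < (u : ℝ)

open Classical in
/-- **Primes with index in a class modulo `q` and almost prime companions, at every narrow shape.**
Let `h_1, ..., h_s ≥ 1` be distinct with `Admissible h`, for instance `s = 1` and `h_1 = 2`, let `q ≥ 1` and `m ≥ 0`.
There are `r`, `B` and `K` such that for all `k ≥ 1` there are `c > 0`, `0 < σ ≤ 1 / 2` and `L` such that, for all
large `x` and all `e`, the set of the primes `p = p_i` of `(x / 2, 2 x]` such that `i ≡ e` modulo `q`,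
`p_(i+m) ≤ p_i + K` and all the numbers `p_(i+u) + h_j`, `0 ≤ u ≤ m`, have at most `r` prime factors, all
larger than `x ^ (1 / r)`, has the property `Shapes k B c σ L x`: for every `X ≥ (log x) ^ L` and ALL distinct
`b_1, ..., b_k ≥ 1` with `b_j W X ^ 3 ≤ x`, `W = WS σ b x`, at least `c X` of the `d ≤ X` are such that for at least
`c x / (log x) ^ (B (k + 1))` elements `n` of the set all the `n + W d b_j` are elements of the set. -/
theorem result {s : ℕ} (h : Fin s → ℕ) (hadm : Admissible h) (hinj : Function.Injective h) (hpos : ∀ i, 1 ≤ h i)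
    (q m : ℕ) (hq : 1 ≤ q) : ∃ r B K : ℕ, ∀ k : ℕ, 1 ≤ k → ∃ c σ : ℝ, 0 < c ∧ 0 < σ ∧ σ ≤ 1 / 2 ∧ ∃ L : ℕ,
    ∀ᶠ x : ℕ in atTop, ∀ e : ℕ, Shapes k B c σ L x
      ((Ioc (x / 2) (2 * x)).filter (Run q e m K (AlmostPrimes h r ((x : ℝ) ^ (1 / (r : ℝ)))))) := by
  classical
  have hS : Pool.Agent.Y848.UG.Sys s (fun _ => 1) (fun l => if hl : l < s then (h ⟨l, hl⟩ : ℤ) else 0) := by
    refine ⟨rfl, by simp, fun _ _ => le_rfl, ?_, ?_⟩
    · intro l hl l' hl' hll
      rintro ⟨-, h2⟩
      by_cases h3 : l < s
      · by_cases h4 : l' < s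
        · rw [dif_pos h3, dif_pos h4] at h2
          have h5 : (⟨l, h3⟩ : Fin s) = ⟨l', h4⟩ := hinj (by exact_mod_cast h2)
          exact hll (by simpa using h5)
        · rw [dif_pos h3, dif_neg h4] at h2
          have := hpos ⟨l, h3⟩
          have h5 : h ⟨l, h3⟩ = 0 := by exact_mod_cast h2
          omega
      · by_cases h4 : l' < s
        · rw [dif_neg h3, dif_pos h4] at h2
          have := hpos ⟨l', h4⟩
          have h5 : 0 = h ⟨l', h4⟩ := by exact_mod_cast h2
          omega
        · omega
    · intro p hp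
      obtain ⟨n, hn1, hn2⟩ := hadm p hp
      refine ⟨n, fun l hl => ?_⟩
      rw [Nat.cast_one, one_mul]
      by_cases h3 : l < s
      · rw [dif_pos h3]
        have := hn2 ⟨l, h3⟩
        intro h4
        apply this
        exact_mod_cast h4
      · rw [dif_neg h3, add_zero]
        intro h4
        apply hn1
        exact_mod_cast h4
  obtain ⟨η, hη, B, K, hm⟩ := Pool.Agent.H534.NW.runN s _ _ hS q m hq
  obtain ⟨r, hr⟩ := exists_nat_ge (2 / η + 1)
  have hr0 : (0 : ℝ) < r := lt_of_lt_of_le (by positivity) hr
  have hrη : 1 / (r : ℝ) ≤ η := by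
    rw [div_le_iff₀ hr0]
    have h1 : 2 / η ≤ r := by linarith
    rw [div_le_iff₀ hη] at h1
    linarith
  obtain ⟨M, hM⟩ : ∃ M : ℕ, M = ∑ i, h i := ⟨_, rfl⟩
  refine ⟨r, B, K, fun k hk => ?_⟩
  obtain ⟨c, σ, hc, hσ, hσ2, L₀, hev⟩ := hm k hk
  refine ⟨c, σ, hc, hσ, hσ2, L₀, ?_⟩
  filter_upwards [hev, eventually_ge_atTop (M + 3)] with x hx hxM e
  have hx3 : 3 ≤ x := by omega
  have hx1 : (1 : ℝ) ≤ x := by exact_mod_cast (by omega : 1 ≤ x)
  refine (hx e).mono hx3 le_rfl le_rfl (fun p hp => ?_)
  rw [mem_filter] at hp ⊢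
  obtain ⟨hp1, hp2, hp3, hp4⟩ := hp
  refine ⟨hp1, hp2, hp3, fun u hu => ?_⟩
  obtain ⟨g1, g2, g3⟩ := hp4 u hu
  refine ⟨g1, fun i => ?_⟩
  have hfac : ∀ v : ℕ, v.Prime → v ∣ pr (Nat.primeCounting p + u) + h i → (x : ℝ) ^ η < v := by
    intro v hv hd
    apply g3 i i.2 v hv
    simp only [Nat.cast_one, one_mul, Fin.is_lt, dif_pos, Fin.eta]
    exact_mod_cast hd
  refine ⟨?_, fun v hv hd => lt_of_le_of_lt ?_ (hfac v hv hd)⟩
  · have h1 : h i ≤ M := by
      rw [hM]
      exact single_le_sum (f := fun i => h i) (fun _ _ => Nat.zero_le _) (mem_univ i)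
    have h2 : pr (Nat.primeCounting p + u) + h i ≤ x ^ 2 := by nlinarith
    have h3 := Pool.Agent.R498.MT.omega_le x (pr (Nat.primeCounting p + u) + h i) η 2 (by omega) hη
      (by have := hpos i; omega) (fun v hv hd => (hfac v hv hd).le) (by
        rw [Real.rpow_two]
        exact_mod_cast h2)
    have h4 : ((pr (Nat.primeCounting p + u) + h i).primeFactorsList.length : ℝ) ≤ r := by linarith
    exact_mod_cast h4
  · exact Real.rpow_le_rpow_of_exponent_le hx1 hrη

end Pool.Agent.Results.MP_be93de_nt.IndicesAtEveryShape
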