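import Pool.Agent.H531.IX.Fin7
import Pool.Agent.H531.IX.CNT
import Pool.Agent.H531.IX.TV1
import Pool.Agent.H531.IX.AVG
import Pool.Agent.H531.IX.ONEB
import Pool.Agent.H531.IX.GBP
import Pool.Agent.H531.IX.MAINP
import Pool.Agent.H531.IX.AELP
import Pool.Agent.H531.IX.WREG
import Pool.Agent.H531.IX.FINP

set_option autoImplicit false

/-!
# Twin primes among the primes with index `k ^ e * n` in the random sieve model

For every prime `q` a residue class `a q` modulo `q` is drawn uniformly and independently. The random primes are the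
integers `v ≥ 3` which are, for all primes `q ≤ zBFT v`, not in the class `0` modulo `q` if `q ≤ (log v) ^ c`, and not in the
class `a q` modulo `q` if `q > (log v) ^ c`. This is the model of Banks, Ford and Tao (*Large prime gaps and
probabilistic models*) in which the small primes sieve out the class `0` as they do for the true primes, `c > 1` is
arbitrary. `nthEl A m` is the `m`-th element of `A`.

The theorem: almost surely, for every fixed `e ≥ 1`, uniformly in all `n ≥ 1` and `K ≥ (K ^ e n) ^ 0.26`, the number of the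
`k ≤ K` such that `r + 2` is a random prime, `r` the random prime with the index `k ^ e n`, is asymptotic to
`2 C₂ K / log (K ^ e n)` as `K ^ e n → ∞`. In particular all the assertions of the page hold in the model for all large `n`:
there is such a `k ≤ n` for `e = 1` and for `e = 2`, and such a `k < 3 √n + 6` for `e = 1`.

The indices form a sparse set here (at most `X ^ (1/2)` indices for the random primes up to `X` in the applications, the
theorem goes down to `X ^ 0.26`). Every index `t` is treated separately: given the classes modulo the primes up to the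
sieving limit of `x`, the place of the random prime with the index `t` is smeared out by the fresh primes over more than
`X ^ 0.01` consecutive survivors, with a distribution of small total variation, among which the twins are regular; the sum
over the blocks is a martingale up to small errors.
-/

open MeasureTheory ProbabilityTheory Filter Topology

namespace Pool.Agent.Results.MP_be93de_nt.RandomSieveIndexMultiples

/-- `V m = ∏ (1 - 1 / q)` over the primes `q ≤ m` -/
noncomputable def V (m : ℕ) : ℝ := ∏ q ∈ (Finset.range (m + 1)).filter Nat.Prime, (1 - 1 / (q : ℝ))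

/-- the classes `a q` are independent, and `a q` is uniform on `0, …, q - 1` for every prime `q` -/
structure Model {Ω : Type} [MeasurableSpace Ω] (P : Measure Ω) (a : ℕ → Ω → ℕ) : Prop where
  measurable : ∀ q, Measurable (a q)
  independent : iIndepFun a P
  uniform : ∀ q, q.Prime → ∀ r < q, P.real {ω | a q ω = r} = 1 / q

/-- the sieving limit of Banks, Ford and Tao: the largest `m` with `∏_{q ≤ m} (1 - 1 / q)⁻¹ ≤ log n` -/
noncomputable def zBFT (n : ℕ) : ℕ := sSup {m : ℕ | (V m)⁻¹ ≤ Real.log n}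

open Classical in
/-- the set of the random primes of a sample -/
def R {Ω : Type} (c : ℝ) (a : ℕ → Ω → ℕ) (ω : Ω) : Set ℕ :=
  {v | 3 ≤ v ∧ ∀ q ≤ zBFT v, q.Prime → v % q ≠ if (q : ℝ) ≤ Real.log v ^ c then 0 else a q ω}

/-- the `m`-th element of `A` in increasing order, `m ≥ 1` -/
noncomputable def nthEl (A : Set ℕ) (m : ℕ) : ℕ := Nat.nth (fun u => u ∈ A) (m - 1)

/-- the number of the `k ≤ K` such that `r + 2 ∈ A`, `r` the element of `A` with the index `k ^ e * n` -/
noncomputable def number (A : Set ℕ) (e n K : ℕ) : ℕ := {k : ℕ | 1 ≤ k ∧ k ≤ K ∧ nthEl A (k ^ e * n) + 2 ∈ A}.ncard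

/-- the partial products of the twin prime constant -/
noncomputable def partialTwin (x : ℕ) : ℝ :=
  ∏ p ∈ (Finset.range (x + 1)).filter (fun p => p.Prime ∧ p ≠ 2), (1 - 1 / ((p : ℝ) - 1) ^ 2)

theorem result :
    (∃ (Ω : Type) (_ : MeasurableSpace Ω) (P : Measure Ω) (a : ℕ → Ω → ℕ), Model P a) ∧
    ∃ C₂ : ℝ, 1 / 2 ≤ C₂ ∧ Tendsto partialTwin atTop (𝓝 C₂) ∧ ∀ c : ℝ, 1 < c →
      ∀ (Ω : Type) [MeasurableSpace Ω] (P : Measure Ω) (a : ℕ → Ω → ℕ), Model P a →
        ∀ᵐ ω ∂P, (R c a ω).Infinite ∧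
          (∀ e : ℕ, 1 ≤ e → ∀ ε : ℝ, 0 < ε → ∃ N₀ : ℕ, ∀ n K : ℕ, 1 ≤ n → 1 ≤ K → N₀ ≤ K ^ e * n →
            ((K ^ e * n : ℕ) : ℝ) ^ (0.26 : ℝ) ≤ K →
            |(number (R c a ω) e n K : ℝ) * Real.log ((K ^ e * n : ℕ) : ℝ) / K - 2 * C₂| ≤ ε) ∧
          ∀ᶠ n : ℕ in atTop,
            (∃ k, 1 ≤ k ∧ k ≤ n ∧ nthEl (R c a ω) (k * n) + 2 ∈ R c a ω) ∧
            (∃ k, 1 ≤ k ∧ k ≤ n ∧ nthEl (R c a ω) (k ^ 2 * n) + 2 ∈ R c a ω) ∧
            ∃ k : ℕ, 1 ≤ k ∧ (k : ℝ) < 3 * √(n : ℝ) + 6 ∧ nthEl (R c a ω) (k * n) + 2 ∈ R c a ω := by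
  classical
  obtain ⟨κ, hκ, hlim⟩ := Pool.Agent.T2H32.GB.C2_lim id monotone_id
  refine ⟨?_, κ, hκ, hlim, ?_⟩
  · obtain ⟨Ω, i, P, a, h⟩ := Pool.Agent.T2H32.BF.exists_model
    exact ⟨Ω, i, P, a, h.measurable, h.independent, h.uniform⟩
  · intro c hc Ω _ P a hmod
    have h : Pool.Agent.T2H32.BF.Model P a := ⟨hmod.measurable, hmod.independent, hmod.uniform⟩
    have e : ∀ ω, Pool.Agent.H531.IX.RS Pool.Agent.T2H32.BF.z0 (Pool.Agent.H559.HY.WW c) (fun q => a q ω) = R c a ω := by
      intro ω
      ext v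
      refine and_congr_right fun hv => forall_congr' fun q => forall_congr' fun hq => forall_congr' fun hp => ?_
      have h1 : q ≤ Pool.Agent.H559.HY.WW c v ↔ (q : ℝ) ≤ Real.log v ^ c := by
        unfold Pool.Agent.H559.HY.WW
        exact Nat.le_floor_iff (Real.rpow_nonneg (Real.log_natCast_nonneg v) c)
      by_cases h2 : q ≤ Pool.Agent.H559.HY.WW c v
      · rw [if_pos h2, if_pos (h1.1 h2)]
      · rw [if_neg h2, if_neg (fun h3 => h2 (h1.2 h3))]
    filter_upwards [Pool.Agent.H531.IX.fin7 Pool.Agent.H531.IX.cnt Pool.Agent.H531.IX.tv1 Pool.Agent.H531.IX.avg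
      Pool.Agent.H531.IX.oneb Pool.Agent.H531.IX.gbp Pool.Agent.H531.IX.mainp Pool.Agent.H531.IX.aelp
      Pool.Agent.H531.IX.wreg Pool.Agent.H531.IX.finp c κ hc (by linarith) hlim Ω P a h] with ω hω
    rw [e] at hω
    exact ⟨hω.1, hω.2, Pool.Agent.H531.IX.page (R c a ω) κ (by linarith) hω.2⟩

end Pool.Agent.Results.MP_be93de_nt.RandomSieveIndexMultiples
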